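import Pool.Agent.Helper724_Q.IdxC
import Pool.Agent.Helper724_Q.Two

set_option autoImplicit false

/-!
# For every `n` there are many `k` for which `p_{kn} ^ 2 - 2` is almost prime

`P j` is the `j`-th prime, `P 1 = 2`.
-/

namespace Pool.Agent.Results.MP_c971ef_nt.IndexMultiples

open Filter Polynomial

/-- the `j`-th prime, for `j ≥ 1` (`P 1 = 2`) -/
noncomputable def P (j : ℕ) : ℕ := Nat.nth Nat.Prime (j - 1)

/-- `m` is a positive integer with at most `R` prime factors, counted with multiplicity, all of them at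
least `y` -/
def AlmostPrime (R : ℕ) (y : ℝ) (m : ℕ) : Prop :=
  0 < m ∧ m.primeFactorsList.length ≤ R ∧ ∀ q : ℕ, q.Prime → q ∣ m → y ≤ q

/-- **For every `n` the numbers `p_{kn} ^ 2 - 2` are almost prime for many `k` in every residue class.**
Let `n, w ≥ 1`, `r ≥ 0` and let `q` be squarefree. There are `C, R, B` and `δ > 0` such that for all
residue classes `c` modulo `w` and all large `N`, for every `e` with `e (e ^ 2 - 2)` prime to `q`, there are at
least `N / (log N) ^ B` integers `k ≡ c` modulo `w` for which the `r + 1` primes `p_{kn}`, `p_{(k+w)n}`, ...,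
`p_{(k+rw)n}` are in `(N, 2 N]` and in an interval of length `C`, and for all of these primes `p` one has
`p ≡ e` modulo `q`, and `p ^ 2 - 2` has at most `R` prime factors, all of them at least `N ^ δ`. -/
theorem result (n w r q : ℕ) (hn : 1 ≤ n) (hw : 1 ≤ w) (hq : Squarefree q) :
    ∃ (C R B : ℕ) (δ : ℝ), 0 < δ ∧ ∀ c : ℕ, ∀ᶠ N : ℕ in atTop, ∀ e : ℕ,
      (∀ l : ℕ, l.Prime → l ∣ q → ¬ (l : ℤ) ∣ (e : ℤ) * ((e : ℤ) ^ 2 - 2)) →
      ∃ T : Finset ℕ, (N : ℝ) ≤ Real.log N ^ B * T.card ∧ ∀ k ∈ T,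
        1 ≤ k ∧ k ≡ c [MOD w] ∧ N < P (k * n) ∧ P ((k + r * w) * n) ≤ 2 * N ∧
        P ((k + r * w) * n) ≤ P (k * n) + C ∧
        ∀ i ≤ r, P ((k + i * w) * n) ≡ e [MOD q] ∧
          AlmostPrime R ((N : ℝ) ^ δ) (P ((k + i * w) * n) ^ 2 - 2) := by
  classical
  have hev : ∀ x : ℤ, (X ^ 2 - 2 : ℤ[X]).eval x = x ^ 2 - 2 := by
    intro x
    simp
  obtain ⟨C, R, B, δ, hδ, h⟩ := Pool.Agent.Helper724_Q.index_count (X ^ 2 - 2 : ℤ[X])
    (fun x _ => by
      rw [hev]
      intro h0
      have h1 : x ^ 2 = 2 := by linarith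
      have h2 : x.natAbs ^ 2 = 2 := by
        have := congrArg Int.natAbs h1
        rwa [Int.natAbs_pow] at this
      have h3 : x.natAbs < 2 := by nlinarith
      interval_cases h4 : x.natAbs <;> omega)
    (fun p hp => by
      rcases Nat.lt_or_ge 2 p with h2 | h2
      · refine ⟨1, ?_⟩
        rw [hev]
        intro hd
        have := Int.le_of_dvd (by norm_num) ((dvd_neg.2 hd))
        norm_num at this
        omega
      · have hp2 : p = 2 := le_antisymm h2 hp.two_le
        subst hp2
        refine ⟨1, ?_⟩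
        rw [hev]
        norm_num)
    q hq (n * w) r (Nat.mul_pos hn hw)
  refine ⟨C, R, B, δ, hδ, fun c => ?_⟩
  have h1 := h (n * (c + w) - 1)
  filter_upwards [h1] with N hN e he
  obtain ⟨T, hT, hmem⟩ := hN e (fun l hl hlq => by
    rw [hev]
    exact he l hl hlq)
  have hcw : 1 ≤ n * (c + w) := Nat.mul_pos hn (by omega)
  have hidx : ∀ k i : ℕ, Nat.nth Nat.Prime (n * w * (k + i) + (n * (c + w) - 1)) =
      P ((c + w + w * k + i * w) * n) := by
    intro k i
    unfold P
    congr 1
    have : (c + w + w * k + i * w) * n = n * w * (k + i) + n * (c + w) := by ring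
    rw [this]
    omega
  refine ⟨T.image (fun k => c + w + w * k), ?_, ?_⟩
  · rw [Finset.card_image_of_injective]
    · exact hT
    · intro a b hab
      simp only at hab
      have : w * a = w * b := by omega
      exact Nat.eq_of_mul_eq_mul_left hw this
  · intro k' hk'
    obtain ⟨k, hk, rfl⟩ := Finset.mem_image.1 hk'
    obtain ⟨g1, g2, g3, g4⟩ := hmem k hk
    have e0 := hidx k 0
    rw [add_zero, zero_mul, add_zero] at e0
    rw [e0] at g1 g3
    rw [hidx k r] at g2 g3
    refine ⟨by omega, ?_, g1, g2, g3, fun i hi => ?_⟩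
    · have : c + w + w * k = c + w * (k + 1) := by ring
      rw [this]
      unfold Nat.ModEq
      rw [Nat.add_mul_mod_self_left]
    · obtain ⟨g5, g6⟩ := g4 i hi
      rw [hidx k i] at g5 g6
      refine ⟨g5, ?_⟩
      rw [hev] at g6
      have hp : (P ((c + w + w * k + i * w) * n)).Prime := Nat.prime_nth_prime _
      have h2 : 2 ≤ P ((c + w + w * k + i * w) * n) ^ 2 := by nlinarith [hp.two_le]
      have hcast : ((P ((c + w + w * k + i * w) * n) : ℕ) : ℤ) ^ 2 - 2 =
          ((P ((c + w + w * k + i * w) * n) ^ 2 - 2 : ℕ) : ℤ) := by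
        rw [Nat.cast_sub h2]
        push_cast
        ring
      rw [hcast] at g6
      obtain ⟨g7, g8, g9⟩ := g6
      refine ⟨?_, by simpa using g8, fun l hl hd => g9 l hl (by exact_mod_cast hd)⟩
      have : P ((c + w + w * k + i * w) * n) ^ 2 - 2 ≠ 0 := by exact_mod_cast g7
      omega

end Pool.Agent.Results.MP_c971ef_nt.IndexMultiples
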