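import Pool.Agent.Helper724_Q.UpQ
import Pool.Agent.Helper724_Q.Mom

set_option autoImplicit false

/-!
# For almost all `n` no small multiplier `k` works

`P j` is the `j`-th prime, `P 1 = 2`.
-/

namespace Pool.Agent.Results.MP_c971ef_nt.LeastMultiplier

open Finset Filter
open Pool.Agent.Helper724_Q (AI AI_le tau moment)

/-- the `j`-th prime, for `j ≥ 1` (`P 1 = 2`) -/
noncomputable def P (j : ℕ) : ℕ := Nat.nth Nat.Prime (j - 1)

open Classical in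
/-- the number of pairs `(n, k)` with `1 ≤ n ≤ x`, `1 ≤ k ≤ K` and `p_{kn} ^ 2 - 2` prime -/
noncomputable def pairs (x K : ℕ) : ℕ :=
  ((Icc 1 x ×ˢ Icc 1 K).filter (fun t => (P (t.2 * t.1) ^ 2 - 2).Prime)).card

open Classical in
/-- the number of the `n ≤ x` for which `p_{kn} ^ 2 - 2` is prime for some `k` with `1 ≤ k ≤ K` -/
noncomputable def numbers (x K : ℕ) : ℕ :=
  ((Icc 1 x).filter (fun n => ∃ k : ℕ, 1 ≤ k ∧ k ≤ K ∧ (P (k * n) ^ 2 - 2).Prime)).card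

open Classical in
theorem pairs_tau (x K : ℕ) :
    pairs x K ≤ ∑ m ∈ (Icc 1 (K * x)).filter (fun m => m ∈ AI), tau K m := by
  unfold pairs
  have h1 : ((Icc 1 x ×ˢ Icc 1 K).filter (fun t => (P (t.2 * t.1) ^ 2 - 2).Prime)).card ≤
      (((Icc 1 (K * x)).filter (fun m => m ∈ AI)).sigma
        (fun m => (Icc 1 K).filter (fun k => k ∣ m))).card := by
    apply card_le_card_of_injOn (fun t => (⟨t.2 * t.1, t.2⟩ : Σ _ : ℕ, ℕ))
    · rintro ⟨n, k⟩ h
      simp only [coe_filter, Set.mem_ofPred_eq, mem_product, mem_Icc] at h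
      obtain ⟨⟨⟨h1, h2⟩, h3, h4⟩, h5⟩ := h
      simp only [coe_sigma, Set.mem_sigma_iff, mem_coe, mem_filter, mem_Icc]
      refine ⟨⟨⟨Nat.mul_pos h3 h1, Nat.mul_le_mul h4 h2⟩, Nat.mul_pos h3 h1, h5⟩, ⟨h3, h4⟩, Dvd.intro _ rfl⟩
    · rintro ⟨n, k⟩ h ⟨n', k'⟩ h' he
      simp only [coe_filter, Set.mem_ofPred_eq, mem_product, mem_Icc] at h h'
      simp only [Sigma.mk.injEq, heq_eq_eq] at he
      obtain ⟨e1, e2⟩ := he
      subst e2
      have := Nat.eq_of_mul_eq_mul_left (by omega) e1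
      subst this
      rfl
  rw [card_sigma] at h1
  exact h1

open Classical in
theorem sum_tau_le (K M J : ℕ) (T : ℝ) (hT : 0 < T) :
    (∑ m ∈ (Icc 1 M).filter (fun m => m ∈ AI), (tau K m : ℝ)) ≤
      T * (AI ∩ Set.Icc 1 M).ncard + (∑ m ∈ Icc 1 M, (tau K m : ℝ) ^ (J + 1)) / T ^ J := by
  have h0 : ∀ m : ℕ, (tau K m : ℝ) ≤ T + (tau K m : ℝ) ^ (J + 1) / T ^ J := by
    intro m
    have ht : (0 : ℝ) ≤ tau K m := Nat.cast_nonneg _
    rcases le_total (tau K m : ℝ) T with h | h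
    · have : 0 ≤ (tau K m : ℝ) ^ (J + 1) / T ^ J := by positivity
      linarith
    · have h1 : (tau K m : ℝ) ≤ (tau K m : ℝ) ^ (J + 1) / T ^ J := by
        rw [le_div_iff₀ (by positivity), pow_succ, mul_comm]
        gcongr
      linarith
  have h1 : (AI ∩ Set.Icc 1 M).ncard = ((Icc 1 M).filter (fun m => m ∈ AI)).card := by
    rw [← Set.ncard_coe_finset]
    congr 1
    ext m
    simp only [Set.mem_inter_iff, Set.mem_Icc, coe_filter, mem_Icc, Set.mem_ofPred_eq]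
    tauto
  rw [h1]
  calc (∑ m ∈ (Icc 1 M).filter (fun m => m ∈ AI), (tau K m : ℝ))
      ≤ ∑ m ∈ (Icc 1 M).filter (fun m => m ∈ AI), (T + (tau K m : ℝ) ^ (J + 1) / T ^ J) :=
        sum_le_sum (fun m _ => h0 m)
    _ = T * ((Icc 1 M).filter (fun m => m ∈ AI)).card +
        ∑ m ∈ (Icc 1 M).filter (fun m => m ∈ AI), (tau K m : ℝ) ^ (J + 1) / T ^ J := by
        rw [sum_add_distrib, sum_const, nsmul_eq_mul, mul_comm]
    _ ≤ T * ((Icc 1 M).filter (fun m => m ∈ AI)).card +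
        ∑ m ∈ Icc 1 M, (tau K m : ℝ) ^ (J + 1) / T ^ J := by
        gcongr
        exact filter_subset _ _
    _ = _ := by rw [sum_div]

/-- the bound for the pairs -/
theorem pairs_le (A ε : ℝ) (hA : 0 ≤ A) (hε : 0 < ε) : ∃ C : ℝ, 0 < C ∧ ∀ x K : ℕ, 3 ≤ x → 1 ≤ K →
    (K : ℝ) ≤ Real.log x ^ A → (pairs x K : ℝ) ≤ C * (x * K / Real.log x ^ (1 - ε)) := by
  classical
  obtain ⟨J, hJ⟩ := exists_nat_ge (2 / ε)
  have hJε : 2 ≤ (J : ℝ) * ε := by
    rw [div_le_iff₀ hε] at hJ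
    exact hJ
  set η : ℝ := 1 / ((A + 1) * (J + 1)) with hη
  have hη0 : 0 < η := by positivity
  obtain ⟨C2, hC2, hmom⟩ := moment (J + 1) η hη0
  obtain ⟨C1, hC1, hAI⟩ := AI_le
  refine ⟨C1 + C2 ^ (J + 1), by positivity, ?_⟩
  intro x K hx hK hKA
  have hx3 : (3 : ℝ) ≤ x := by exact_mod_cast hx
  have hK1 : (1 : ℝ) ≤ K := by exact_mod_cast hK
  set L : ℝ := Real.log x with hL
  have hL1 : 1 ≤ L := by
    rw [hL, Real.le_log_iff_exp_le (by linarith)]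
    have := Real.exp_one_lt_d9
    linarith
  have hL0 : 0 < L := by linarith
  have hT : 0 < L ^ ε := by positivity
  have h1 : (pairs x K : ℝ) ≤ ∑ m ∈ (Icc 1 (K * x)).filter (fun m => m ∈ AI), (tau K m : ℝ) := by
    exact_mod_cast pairs_tau x K
  have h2 := sum_tau_le K (K * x) J (L ^ ε) hT
  have hMx : x ≤ K * x := Nat.le_mul_of_pos_left _ hK
  have h3 : ((AI ∩ Set.Icc 1 (K * x)).ncard : ℝ) ≤ C1 * ((x * K) / L) := by
    refine (hAI (K * x) (by omega)).trans ?_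
    have h4 : L ≤ Real.log ((K * x : ℕ) : ℝ) :=
      Real.log_le_log (by linarith) (by exact_mod_cast hMx)
    have h5 : ((K * x : ℕ) : ℝ) = x * K := by
      push_cast
      ring
    rw [h5] at h4 ⊢
    gcongr
  have h4 : ∑ m ∈ Icc 1 (K * x), (tau K m : ℝ) ^ (J + 1) ≤ (x * K) * (C2 ^ (J + 1) * L) := by
    refine (hmom K hK (K * x)).trans ?_
    have h5 : ((K * x : ℕ) : ℝ) = x * K := by
      push_cast
      ring
    rw [h5, mul_pow]
    have h6 : ((K : ℝ) ^ η) ^ (J + 1) ≤ L := by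
      rw [← Real.rpow_natCast, ← Real.rpow_mul (by linarith)]
      push_cast
      have h7 : η * ((J : ℝ) + 1) = 1 / (A + 1) := by
        rw [hη]
        field_simp
      rw [h7]
      calc (K : ℝ) ^ (1 / (A + 1)) ≤ (L ^ A) ^ (1 / (A + 1)) := by gcongr
        _ = L ^ (A * (1 / (A + 1))) := by rw [← Real.rpow_mul hL0.le]
        _ ≤ L ^ (1 : ℝ) := by
            apply Real.rpow_le_rpow_of_exponent_le hL1
            rw [mul_one_div, div_le_one (by linarith)]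
            linarith
        _ = L := Real.rpow_one L
    gcongr
  have h5 : (x * K : ℝ) * (C2 ^ (J + 1) * L) / (L ^ ε) ^ J ≤ C2 ^ (J + 1) * (x * K / L ^ (1 - ε)) := by
    have h6 : L ^ (1 - ε) * L ≤ (L ^ ε) ^ J := by
      rw [← Real.rpow_natCast, ← Real.rpow_mul hL0.le]
      nth_rewrite 2 [← Real.rpow_one L]
      rw [← Real.rpow_add hL0]
      apply Real.rpow_le_rpow_of_exponent_le hL1
      nlinarith
    rw [div_le_iff₀ (by positivity)]
    have h7 : C2 ^ (J + 1) * (x * K / L ^ (1 - ε)) * (L ^ (1 - ε) * L) = (x * K : ℝ) * (C2 ^ (J + 1) * L) := by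
      field_simp
    rw [← h7]
    gcongr
  have h6 : L ^ ε * (C1 * ((x * K) / L)) = C1 * (x * K / L ^ (1 - ε)) := by
    have h7 : L ^ ε * L ^ (1 - ε) = L := by
      rw [← Real.rpow_add hL0]
      norm_num
    have h8 : L ^ (1 - ε) ≠ 0 := by positivity
    field_simp
    rw [h7]
  calc (pairs x K : ℝ) ≤ L ^ ε * ((AI ∩ Set.Icc 1 (K * x)).ncard : ℝ) +
        (∑ m ∈ Icc 1 (K * x), (tau K m : ℝ) ^ (J + 1)) / (L ^ ε) ^ J := h1.trans h2
    _ ≤ L ^ ε * (C1 * ((x * K) / L)) + (x * K) * (C2 ^ (J + 1) * L) / (L ^ ε) ^ J := by gcongr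
    _ ≤ C1 * (x * K / L ^ (1 - ε)) + C2 ^ (J + 1) * (x * K / L ^ (1 - ε)) := by
        rw [h6]
        linarith
    _ = _ := by ring

theorem numbers_le (x K : ℕ) : numbers x K ≤ pairs x K := by
  classical
  unfold numbers pairs
  apply card_le_card_of_surjOn (fun t => t.1)
  intro n hn
  simp only [coe_filter, Set.mem_ofPred_eq, mem_Icc] at hn
  obtain ⟨hn1, k, hk1, hk2, hk3⟩ := hn
  refine ⟨(n, k), ?_, rfl⟩
  simp only [coe_filter, Set.mem_ofPred_eq, mem_product, mem_Icc]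
  exact ⟨⟨hn1, hk1, hk2⟩, hk3⟩

/-- **Few multipliers, and no small multiplier for almost all `n`.** (1) Let `A ≥ 0` and `ε > 0`. There is `C`
such that for all `x ≥ 3` and `1 ≤ K ≤ (log x) ^ A` the number of pairs `(n, k)` with `n ≤ x`, `k ≤ K` and
`p_{kn} ^ 2 - 2` prime is at most `C x K / (log x) ^ (1 - ε)`. (2) Let `0 < ε ≤ 1`. There is `C` such that for
all `x ≥ 3` the number of `n ≤ x` for which `p_{kn} ^ 2 - 2` is prime for some `k ≤ (log x) ^ (1 - ε)` is at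
most `C x / (log x) ^ (ε / 2)`. -/
theorem result :
    (∀ A ε : ℝ, 0 ≤ A → 0 < ε → ∃ C : ℝ, 0 < C ∧ ∀ x K : ℕ, 3 ≤ x → 1 ≤ K → (K : ℝ) ≤ Real.log x ^ A →
      (pairs x K : ℝ) ≤ C * (x * K / Real.log x ^ (1 - ε))) ∧
    ∀ ε : ℝ, 0 < ε → ε ≤ 1 → ∃ C : ℝ, 0 < C ∧ ∀ x : ℕ, 3 ≤ x →
      (numbers x ⌊Real.log x ^ (1 - ε)⌋₊ : ℝ) ≤ C * (x / Real.log x ^ (ε / 2)) := by
  refine ⟨pairs_le, ?_⟩
  intro ε hε hε1
  obtain ⟨C, hC, h⟩ := pairs_le 1 (ε / 2) zero_le_one (by positivity)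
  refine ⟨C, hC, fun x hx => ?_⟩
  have hx3 : (3 : ℝ) ≤ x := by exact_mod_cast hx
  set L : ℝ := Real.log x with hL
  have hL1 : 1 ≤ L := by
    rw [hL, Real.le_log_iff_exp_le (by linarith)]
    have := Real.exp_one_lt_d9
    linarith
  have hL0 : 0 < L := by linarith
  set K : ℕ := ⌊L ^ (1 - ε)⌋₊ with hK
  have h1 : (1 : ℝ) ≤ L ^ (1 - ε) := Real.one_le_rpow hL1 (by linarith)
  have hK1 : 1 ≤ K := by
    rw [hK, Nat.le_floor_iff (by linarith)]
    exact_mod_cast h1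
  have hKL : (K : ℝ) ≤ L ^ (1 - ε) := Nat.floor_le (by linarith)
  have h2 : (K : ℝ) ≤ L ^ (1 : ℝ) :=
    hKL.trans (Real.rpow_le_rpow_of_exponent_le hL1 (by linarith))
  have h3 := h x K hx hK1 h2
  calc (numbers x K : ℝ) ≤ pairs x K := by exact_mod_cast numbers_le x K
    _ ≤ C * (x * K / L ^ (1 - ε / 2)) := h3
    _ ≤ C * (x * L ^ (1 - ε) / L ^ (1 - ε / 2)) := by gcongr
    _ = C * (x / L ^ (ε / 2)) := by
      have h4 : L ^ (1 - ε) * L ^ (ε / 2) = L ^ (1 - ε / 2) := by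
        rw [← Real.rpow_add hL0]
        congr 1
        ring
      rw [← h4]
      field_simp

end Pool.Agent.Results.MP_c971ef_nt.LeastMultiplier
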