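import Pool.Agent.H961C9.Prog

set_option autoImplicit false

/-!
# Long narrow progressions of primes `p_{kn}` with `p_{kn} ^ 2 - 2` almost prime

`P j` is the `j`-th prime, `P 1 = 2`.
-/

namespace Pool.Agent.Results.MP_c971ef_nt.ProgressionsEveryN

open Filter Polynomial

/-- the `j`-th prime, for `j ≥ 1` (`P 1 = 2`) -/
noncomputable def P (j : ℕ) : ℕ := Nat.nth Nat.Prime (j - 1)

/-- `m` is a positive integer with at most `R` prime factors, counted with multiplicity, all of them at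
least `y` -/
def AlmostPrime (R : ℕ) (y : ℝ) (m : ℕ) : Prop :=
  0 < m ∧ m.primeFactorsList.length ≤ R ∧ ∀ q : ℕ, q.Prime → q ∣ m → y ≤ q

/-- **Narrow progressions of primes `p_{kn}`, `k` in a given class, with `p_{kn} ^ 2 - 2` almost prime.**
Let `n, w ≥ 1`, `r ≥ 0`, let `q` be squarefree and `e (e ^ 2 - 2)` prime to `q`. There are `C, R` and
`δ > 0` such that for every `L` there is `B` such that for all large `N` and every residue class `c`
modulo `w` there are `1 ≤ d ≤ (log N) ^ B`, `a` and `0 = g 0, g 1, …, g r ≤ C` such that for every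
`t < L` there is `k ≥ 1`, `k ≡ c` modulo `w`, with `p_{kn} = a + t d` and `p_{kn+i} = a + t d + g i`
for `i ≤ r`, all these primes `p` are in `(N, 2 N]` and `≡ e` modulo `q`, and every `p ^ 2 - 2` has at most
`R` prime factors, all of them at least `N ^ δ`. -/
theorem result (n w r q e : ℕ) (hn : 1 ≤ n) (hw : 1 ≤ w) (hq : Squarefree q)
    (he : ∀ l : ℕ, l.Prime → l ∣ q → ¬ (l : ℤ) ∣ (e : ℤ) * ((e : ℤ) ^ 2 - 2)) :
    ∃ (C R : ℕ) (δ : ℝ), 0 < δ ∧ ∀ L : ℕ, ∃ B : ℕ, ∀ᶠ N : ℕ in atTop, ∀ c : ℕ,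
      ∃ (a d : ℕ) (g : ℕ → ℕ), 1 ≤ d ∧ (d : ℝ) ≤ Real.log N ^ B ∧ g 0 = 0 ∧ g r ≤ C ∧
        ∀ t < L, N < a + t * d ∧ a + t * d + g r ≤ 2 * N ∧ ∃ k : ℕ, 1 ≤ k ∧ k ≡ c [MOD w] ∧
          ∀ i ≤ r, P (k * n + i) = a + t * d + g i ∧ P (k * n + i) ≡ e [MOD q] ∧
            AlmostPrime R ((N : ℝ) ^ δ) (P (k * n + i) ^ 2 - 2) := by
  have hev : ∀ x : ℤ, (X ^ 2 - 2 : ℤ[X]).eval x = x ^ 2 - 2 := by
    intro x
    simp
  obtain ⟨C, R, δ, hδ, h⟩ := Pool.Agent.H961C9.index_prog (X ^ 2 - 2 : ℤ[X])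
    (fun x _ => by
      rw [hev]
      intro h0
      have h1 : x ^ 2 = 2 := by linarith
      have h2 : x.natAbs ^ 2 = 2 := by
        have := congrArg Int.natAbs h1
        rwa [Int.natAbs_pow] at this
      have h3 : x.natAbs < 2 := by nlinarith
      interval_cases h4 : x.natAbs <;> omega)
    (fun p hp => by
      refine ⟨1, ?_⟩
      rw [hev]
      intro hd
      have h1 : (p : ℤ) ∣ 1 := by
        have h2 : (1 : ℤ) * (1 ^ 2 - 2) = -1 := by norm_num
        rw [h2] at hd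
        exact (dvd_neg.1 hd)
      have h2 := Int.le_of_dvd one_pos h1
      have h3 := hp.two_le
      omega)
    q e hq (fun p hp hpq => by
      rw [hev]
      exact he p hp hpq) (n * w) r (Nat.mul_pos hn hw)
  refine ⟨C, R, δ, hδ, fun L => ?_⟩
  obtain ⟨B, hB⟩ := h L
  refine ⟨B, ?_⟩
  filter_upwards [hB] with N hN
  intro c
  have hcw : 1 ≤ n * (c + w) := Nat.mul_pos hn (by omega)
  obtain ⟨a, d, g, h1, h2, h3, h4, h5⟩ := hN (n * (c + w) - 1)
  refine ⟨a, d, g, h1, h2, h3, h4, ?_⟩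
  intro t ht
  obtain ⟨h6, h7, j, hj, h8⟩ := h5 t ht
  refine ⟨h6, h7, ?_⟩
  have e1 : j + 1 ≡ n * (c + w) [MOD n * w] := by
    have := hj.add_right 1
    have e2 : n * (c + w) - 1 + 1 = n * (c + w) := by omega
    rwa [e2] at this
  have e2 : n ∣ j + 1 := by
    have e3 : j + 1 ≡ n * (c + w) [MOD n] := e1.of_dvd (Dvd.intro _ rfl)
    exact (e3.dvd_iff dvd_rfl).2 (Dvd.intro _ rfl)
  obtain ⟨k, hk⟩ := e2
  have hk1 : 1 ≤ k := by
    rcases Nat.eq_zero_or_pos k with h0 | h0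
    · rw [h0, mul_zero] at hk
      omega
    · exact h0
  refine ⟨k, hk1, ?_, ?_⟩
  · rw [hk] at e1
    have e3 : k ≡ c + w [MOD w] := Nat.ModEq.mul_left_cancel' (by omega) e1
    exact e3.trans (by
      show (c + w) % w = c % w
      rw [Nat.add_mod_right])
  · intro i hi
    obtain ⟨g1, g2, g3⟩ := h8 i hi
    have e4 : P (k * n + i) = Nat.nth Nat.Prime (j + i) := by
      unfold P
      congr 1
      rw [mul_comm k n, ← hk]
      omega
    have hp : (P (k * n + i)).Prime := by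
      rw [e4]
      exact Nat.prime_nth_prime _
    have e5 : P (k * n + i) = a + t * d + g i := e4.trans g1
    rw [← e5] at g2 g3
    refine ⟨e5, g2, ?_⟩
    obtain ⟨f1, f2, f3⟩ := g3
    rw [hev] at f1 f2 f3
    have hp2 := hp.two_le
    have hp4 : 4 ≤ P (k * n + i) ^ 2 := by nlinarith
    have e6 : ((P (k * n + i) : ℕ) : ℤ) ^ 2 - 2 = ((P (k * n + i) ^ 2 - 2 : ℕ) : ℤ) := by
      rw [Nat.cast_sub (by omega)]
      push_cast
      rfl
    rw [e6] at f2 f3
    refine ⟨by omega, ?_, ?_⟩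
    · rwa [Int.natAbs_natCast] at f2
    · intro l hl hd
      exact f3 l hl (by exact_mod_cast hd)

end Pool.Agent.Results.MP_c971ef_nt.ProgressionsEveryN
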